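import Pool.Agent.helper82.SC.SpecA

/-! # sp: WS, both sides of a wall -/

namespace Pool.Agent.helper82.SC

open Relation

/-- the end sites of a dart -/
def WS_End (x : Dart) (u : V) : Prop := u = S x.1 x.2 ∨ u = S x.1 (x.2 + 1)

/-- the end sites have different colours -/
def WS_good (c : V → ZMod 2) (x : Dart) : Prop := c (S x.1 x.2) + c (S x.1 (x.2 + 1)) = 1

theorem WS_zmod (a b k : ZMod 2) (h : a + b = 1) : (a = k ∧ b ≠ k) ∨ (a ≠ k ∧ b = k) := by
  revert a b k
  decide

theorem WS_link (D : Dom) (ψ : Dart → ZMod 2) (c : V → ZMod 2)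
    (hψ : ∀ x : Dart, D.FU x.1 → ψ x = c (S x.1 x.2) + c (S x.1 (x.2 + 1))) (x y : Dart)
    (h : D.Link ψ x y) : WS_good c x ∧ WS_good c y := by
  obtain ⟨h1, h2, h3⟩ := h
  rcases h3 with ⟨h3, h4, -⟩ | ⟨h3, h4⟩
  · refine ⟨?_, ?_⟩
    · unfold WS_good
      rw [← hψ x h3, h1]
    · unfold WS_good
      rw [← hψ y (h4 ▸ h3), h2]
  · subst h4
    have key : c (S (star x).1 (star x).2) + c (S (star x).1 ((star x).2 + 1)) =
        c (S x.1 x.2) + c (S x.1 (x.2 + 1)) := by
      change c (S (tw x.1 x.2) x.2) + c (S (tw x.1 x.2) (x.2 + 1)) = _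
      rw [S_tw, S_tw', add_comm]
    unfold WS_good
    rw [key]
    rcases h3 with h3 | h3
    · rw [← hψ x h3, h1]
      exact ⟨rfl, rfl⟩
    · rw [← key, ← hψ (star x) h3, h2]
      exact ⟨rfl, rfl⟩

theorem WS_step (D : Dom) (ψ : Dart → ZMod 2) (c : V → ZMod 2) (k : ZMod 2)
    (hψ : ∀ x : Dart, D.FU x.1 → ψ x = c (S x.1 x.2) + c (S x.1 (x.2 + 1))) (x y : Dart)
    (h : D.Link ψ x y) (u v : V) (hu : WS_End x u) (hv : WS_End y v) (cu : c u = k)
    (cv : c v = k) : u = v ∨ TAdj u v := by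
  have hg := WS_link D ψ c hψ x y h
  obtain ⟨h1, h2, h3⟩ := h
  rcases h3 with ⟨h3, h4, -⟩ | ⟨h3, h4⟩
  · have : ∀ e e' : Fin 3, S x.1 e = S x.1 e' ∨ TAdj (S x.1 e) (S x.1 e') := by
      intro e e'
      by_cases he : e = e'
      · left; rw [he]
      · right; exact TAdj_S _ _ _ he
    unfold WS_End at hu hv
    rw [← h4] at hv
    rcases hu with rfl | rfl <;> rcases hv with rfl | rfl <;> exact this _ _
  · left
    subst h4
    have hv' : WS_End x v := by
      rcases hv with hv | hv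
      · right
        rw [hv]
        exact S_tw x.1 x.2
      · left
        rw [hv]
        exact S_tw' x.1 x.2
    rcases WS_zmod _ _ k hg.1 with ⟨ha, hb⟩ | ⟨ha, hb⟩
    · rcases hu with rfl | rfl
      · rcases hv' with rfl | rfl
        · rfl
        · exact absurd cv hb
      · exact absurd cu hb
    · rcases hu with rfl | rfl
      · exact absurd cu ha
      · rcases hv' with rfl | rfl
        · exact absurd cv ha
        · rfl

theorem WS_con (D : Dom) (ψ : Dart → ZMod 2) (c : V → ZMod 2) (k : ZMod 2)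
    (hψ : ∀ x : Dart, D.FU x.1 → ψ x = c (S x.1 x.2) + c (S x.1 (x.2 + 1))) (x y : Dart)
    (hx : WS_good c x) (h : D.Cn ψ x y) : WS_good c y ∧
    ∀ u v, WS_End x u → WS_End y v → c u = k → c v = k → Con {w | c w = k} u v := by
  induction h with
  | refl =>
    refine ⟨hx, fun u v hu hv cu cv => ⟨cu, ?_⟩⟩
    have : u = v := by
      rcases WS_zmod _ _ k hx with ⟨ha, hb⟩ | ⟨ha, hb⟩
      · rcases hu with rfl | rfl
        · rcases hv with rfl | rfl
          · rfl
          · exact absurd cv hb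
        · exact absurd cu hb
      · rcases hu with rfl | rfl
        · exact absurd cu ha
        · rcases hv with rfl | rfl
          · exact absurd cv ha
          · rfl
    rw [this]
  | @tail y z _ hyz ih =>
    obtain ⟨hy, ih⟩ := ih
    refine ⟨(WS_link D ψ c hψ y z hyz).2, fun u v hu hv cu cv => ?_⟩
    obtain ⟨w, hw, cw⟩ : ∃ w, WS_End y w ∧ c w = k := by
      rcases WS_zmod _ _ k hy with ⟨ha, -⟩ | ⟨-, hb⟩
      · exact ⟨_, Or.inl rfl, ha⟩
      · exact ⟨_, Or.inr rfl, hb⟩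
    obtain ⟨h1, h2⟩ := ih u w hu hw cu cw
    refine ⟨h1, ?_⟩
    rcases WS_step D ψ c k hψ y z hyz w v hw hv cw cv with rfl | h3
    · exact h2
    · exact h2.tail ⟨h3, cv⟩

theorem WS : WS_stmt := by
  intro D ψ c k x y hψ hxy h u v hu hv cu cv
  rcases ReflTransGen.cases_head h with h' | ⟨z, hz, -⟩
  · exact absurd h' hxy
  · exact (WS_con D ψ c k hψ x y (WS_link D ψ c hψ x z hz).1 h).2 u v hu hv cu cv

end Pool.Agent.helper82.SC

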